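import Pool.Agent.Helper10.GO.GoalsC

/-!
# Project GO: the dimensions of `X_n^a X_(n+m)^e` do not depend on `n` (`S_ISO`)
-/

set_option autoImplicit false

open MvPolynomial

namespace Pool.Agent.Helper96.GO

open Pool.Agent.Helper10.GO

section iso

variable {K : Type} [Field K] [Algebra K ℂ] {N δ : ℕ} {Γ : Fin (N + 1) → MvPolynomial (Fin (N + 1)) K}
  {ξ : ℕ → Fin (N + 1) → ℂ}

theorem it_step (h : GenData K N δ Γ ξ) (n m : ℕ) : ∀ j, ξ (n + m) j = aeval (ξ n) (it Γ m j) := by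
  induction m with
  | zero =>
    intro j
    show ξ n j = aeval (ξ n) (X j)
    rw [aeval_X]
  | succ m ih =>
    intro j
    show ξ (n + m + 1) j = aeval (ξ n) (aeval (it Γ m) (Γ j))
    rw [h.step, comp_aeval_apply]
    have e : ξ (n + m) = fun i => aeval (ξ n) (it Γ m i) := funext ih
    rw [e]

theorem it_hom (h : GenData K N δ Γ ξ) (m : ℕ) : ∀ j, (it Γ m j).IsHomogeneous (δ ^ m) := by
  induction m with
  | zero =>
    intro j
    rw [pow_zero]
    exact isHomogeneous_X K j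
  | succ m ih =>
    intro j
    rw [pow_succ]
    exact (h.hom j).aeval _ ih

theorem xi_ne (h : GenData K N δ Γ ξ) (n : ℕ) : ξ n ≠ 0 := by
  intro h0
  apply h.ne
  funext i
  have h1 := (h.same n 1 (X i) (isHomogeneous_X K i)).1 (by rw [aeval_X, h0]; rfl)
  rw [aeval_X] at h1
  exact h1

/-- The tuple `(X, it Γ m)`. -/
noncomputable def gg (Γ : Fin (N + 1) → MvPolynomial (Fin (N + 1)) K) (m : ℕ)
    (p : Fin 2 × Fin (N + 1)) : MvPolynomial (Fin (N + 1)) K := it Γ (if p.1 = 0 then 0 else m) p.2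

theorem gg_hom (h : GenData K N δ Γ ξ) (m a e : ℕ) (Q : MvPolynomial (Fin 2 × Fin (N + 1)) K)
    (hQ : Q ∈ mh K 2 N ![a, e]) : (aeval (gg Γ m) Q).IsHomogeneous (a + e * δ ^ m) := by
  rw [aeval_def, eval₂_eq']
  refine IsHomogeneous.sum _ _ _ fun s hs => ?_
  have hw : Finsupp.weight (bw 2 N) s = ![a, e] := hQ (mem_support_iff.1 hs)
  rw [Finsupp.weight_apply, Finsupp.sum_fintype _ _ (fun i => by rw [zero_smul])] at hw
  have h0 := congrFun hw 0
  have h1 := congrFun hw 1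
  rw [Finset.sum_apply] at h0 h1
  have hd : a + e * δ ^ m =
      0 + ∑ p : Fin 2 × Fin (N + 1), δ ^ (if p.1 = 0 then 0 else m) * s p := by
    have h0' : ∑ p : Fin 2 × Fin (N + 1), (s p • bw 2 N p) 0 = a := h0
    have h1' : ∑ p : Fin 2 × Fin (N + 1), (s p • bw 2 N p) 1 = e := h1
    rw [zero_add, ← h0', ← h1', Finset.sum_mul, ← Finset.sum_add_distrib]
    refine Finset.sum_congr rfl fun p _ => ?_
    obtain ⟨i, j⟩ := p
    fin_cases i
    · simp [bw]
    · simp [bw, mul_comm]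
  rw [hd]
  refine IsHomogeneous.mul ?_ ?_
  · exact isHomogeneous_C _ _
  · refine IsHomogeneous.prod _ _ _ fun p _ => ?_
    exact (it_hom h _ p.2).pow _

theorem gg_eval (h : GenData K N δ Γ ξ) (n m : ℕ) (Q : MvPolynomial (Fin 2 × Fin (N + 1)) K) :
    aeval (ξ n) (aeval (gg Γ m) Q) =
      aeval (fun p : Fin 2 × Fin (N + 1) => (![ξ n, ξ (n + m)] : Fin 2 → Fin (N + 1) → ℂ) p.1 p.2) Q := by
  rw [comp_aeval_apply]
  have e : (fun p : Fin 2 × Fin (N + 1) => aeval (ξ n) (gg Γ m p)) =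
      fun p : Fin 2 × Fin (N + 1) => (![ξ n, ξ (n + m)] : Fin 2 → Fin (N + 1) → ℂ) p.1 p.2 := by
    funext p
    obtain ⟨i, j⟩ := p
    fin_cases i
    · show aeval (ξ n) (it Γ 0 j) = ξ n j
      rw [← it_step h]
      rfl
    · show aeval (ξ n) (it Γ m j) = ξ (n + m) j
      rw [← it_step h]
  rw [e]

end iso

theorem iso (hTRN : S_TRN) : S_ISO := by
  intro K _ _ N δ Γ ξ h
  refine ⟨it_step h, it_hom h, xi_ne h, fun n m a e => ?_⟩
  obtain ⟨I, -, hI1, hI2⟩ := hTRN K ℂ 2 N (![ξ n, ξ (n + m)] : Fin 2 → Fin (N + 1) → ℂ)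
  obtain ⟨I', -, hI1', hI2'⟩ := hTRN K ℂ 2 N (![ξ 0, ξ m] : Fin 2 → Fin (N + 1) → ℂ)
  have e1 : hf K (![ξ n, ξ (n + m)] : Fin 2 → Fin (N + 1) → ℂ) ![a, e] =
      Module.finrank K (sp K (ξ n) ^ a * sp K (ξ (n + m)) ^ e : Submodule K ℂ) := by
    unfold hf
    rw [Fin.prod_univ_two]
    rfl
  have e2 : hf K (![ξ 0, ξ m] : Fin 2 → Fin (N + 1) → ℂ) ![a, e] =
      Module.finrank K (sp K (ξ 0) ^ a * sp K (ξ m) ^ e : Submodule K ℂ) := by
    unfold hf
    rw [Fin.prod_univ_two]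
    rfl
  have h0 : ∀ Q : MvPolynomial (Fin 2 × Fin (N + 1)) K, aeval (ξ 0) (aeval (gg Γ m) Q) =
      aeval (fun p : Fin 2 × Fin (N + 1) => (![ξ 0, ξ m] : Fin 2 → Fin (N + 1) → ℂ) p.1 p.2) Q := by
    intro Q
    have h1 := gg_eval h 0 m Q
    rw [zero_add] at h1
    exact h1
  have key : (Submodule.restrictScalars K I ⊓ mh K 2 N ![a, e] :
      Submodule K (MvPolynomial (Fin 2 × Fin (N + 1)) K)) =
      Submodule.restrictScalars K I' ⊓ mh K 2 N ![a, e] := by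
    ext Q
    constructor
    · rintro ⟨hQ, hQ'⟩
      refine ⟨?_, hQ'⟩
      have h1 := (hI2 _ Q hQ').1 hQ
      refine (hI2' _ Q hQ').2 ?_
      rw [← h0]
      rw [← gg_eval h] at h1
      exact (h.same n _ _ (gg_hom h m a e Q hQ')).1 h1
    · rintro ⟨hQ, hQ'⟩
      refine ⟨?_, hQ'⟩
      have h1 := (hI2' _ Q hQ').1 hQ
      refine (hI2 _ Q hQ').2 ?_
      rw [← gg_eval h]
      rw [← h0] at h1
      exact (h.same n _ _ (gg_hom h m a e Q hQ')).2 h1
  have h2 : HF I ![a, e] = HF I' ![a, e] := by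
    unfold HF
    rw [key]
  rw [hI1, hI1', e1, e2] at h2
  exact_mod_cast h2

end Pool.Agent.Helper96.GO
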