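import Pool.Agent.Helper10.GO.GoalsP

/-!
# Project GO: Strassmann's theorem for binomial expansions (`S_STR`)
-/

set_option autoImplicit false

open Polynomial

namespace Pool.Agent.Helper96.GO

open Pool.Agent.Helper10.GO

theorem val_fact (p : ℕ) [hp : Fact p.Prime] (h3 : 3 ≤ p) (j : ℕ) :
    2 * padicValNat p j.factorial ≤ j := by
  have h1 := sub_one_mul_padicValNat_factorial (p := p) j
  have h2 : 2 * padicValNat p j.factorial ≤ (p - 1) * padicValNat p j.factorial :=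
    Nat.mul_le_mul_right _ (by omega)
  omega

theorem norm_u (p : ℕ) [hp : Fact p.Prime] (h3 : 3 ≤ p) (c : ℤ_[p]) (j : ℕ)
    (hc : (p : ℤ_[p]) ^ j ∣ c) :
    ‖(c : ℚ_[p]) / (j.factorial : ℚ_[p])‖ ≤ (p : ℝ) ^ (-((j / 2 : ℕ) : ℤ)) := by
  have hp0 : (0 : ℝ) < p := by exact_mod_cast hp.out.pos
  have hp1 : (1 : ℝ) ≤ p := by exact_mod_cast hp.out.one_lt.le
  have h1 : ‖(c : ℚ_[p])‖ ≤ (p : ℝ) ^ (-(j : ℤ)) := by
    have h2 := (PadicInt.norm_le_pow_iff_mem_span_pow c j).2 (Ideal.mem_span_singleton.2 hc)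
    exact h2
  have h0 : (j.factorial : ℚ_[p]) ≠ 0 := by exact_mod_cast j.factorial_ne_zero
  have h2 : ‖(j.factorial : ℚ_[p])‖ = (p : ℝ) ^ (-(padicValNat p j.factorial : ℤ)) := by
    rw [Padic.norm_eq_zpow_neg_valuation h0, Padic.valuation_natCast]
  rw [norm_div, h2]
  calc ‖(c : ℚ_[p])‖ / (p : ℝ) ^ (-(padicValNat p j.factorial : ℤ))
      ≤ (p : ℝ) ^ (-(j : ℤ)) / (p : ℝ) ^ (-(padicValNat p j.factorial : ℤ)) := by gcongr
    _ = (p : ℝ) ^ (-(j : ℤ) - -(padicValNat p j.factorial : ℤ)) := by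
        rw [zpow_sub₀ hp0.ne']
    _ ≤ _ := by
        apply zpow_le_zpow_right₀ hp1
        have := val_fact p h3 j
        omega

/-- the last maximum of a null sequence -/
theorem last_max (u : ℕ → ℝ) (j₀ : ℕ) (h0 : 0 < u j₀) (J₀ : ℕ)
    (hJ : ∀ j, J₀ ≤ j → u j < u j₀) : ∃ m, 0 < u m ∧ (∀ j, m < j → u j < u m) := by
  have hj₀ : j₀ < J₀ := by
    by_contra h
    exact lt_irrefl _ (hJ j₀ (not_lt.1 h))
  obtain ⟨m, hm, hmax⟩ := Finset.exists_max_image (Finset.range J₀)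
    (fun j => (toLex (u j, j) : ℝ ×ₗ ℕ)) ⟨j₀, Finset.mem_range.2 hj₀⟩
  have hle : ∀ j, j < J₀ → u j < u m ∨ u j = u m ∧ j ≤ m := by
    intro j hj
    have h1 := hmax j (Finset.mem_range.2 hj)
    rcases Prod.Lex.toLex_le_toLex.1 h1 with h2 | h2
    · exact Or.inl h2
    · exact Or.inr h2
  have h1 : u j₀ ≤ u m := by
    rcases hle j₀ hj₀ with h2 | h2
    · exact h2.le
    · exact h2.1.le
  refine ⟨m, lt_of_lt_of_le h0 h1, fun j hj => ?_⟩
  rcases Nat.lt_or_ge j J₀ with h2 | h2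
  · rcases hle j h2 with h3 | h3
    · exact h3
    · omega
  · exact lt_of_lt_of_le (hJ j h2) h1

theorem strm : S_STR := by
  intro p hp c h3 hc hinf
  by_contra hcon
  push Not at hcon
  obtain ⟨j₀, hj₀⟩ := hcon
  have hp0 : (0 : ℝ) < p := by exact_mod_cast hp.out.pos
  have hp1 : (1 : ℝ) < p := by exact_mod_cast hp.out.one_lt
  set u : ℕ → ℚ_[p] := fun j => (c j : ℚ_[p]) / (j.factorial : ℚ_[p]) with hu
  have hfac : ∀ j : ℕ, (j.factorial : ℚ_[p]) ≠ 0 := fun j => by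
    exact_mod_cast j.factorial_ne_zero
  have hu0 : 0 < ‖u j₀‖ := by
    rw [norm_pos_iff]
    refine div_ne_zero ?_ (hfac j₀)
    intro h
    apply hj₀
    exact Subtype.ext h
  obtain ⟨k, hk⟩ : ∃ k : ℕ, (p : ℝ) ^ (-(k : ℤ)) < ‖u j₀‖ := by
    obtain ⟨k, hk⟩ := exists_pow_lt_of_lt_one hu0 (inv_lt_one_of_one_lt₀ hp1)
    refine ⟨k, ?_⟩
    rw [zpow_neg, zpow_natCast, ← inv_pow]
    exact hk
  obtain ⟨m, hm0, hm⟩ := last_max (fun j => ‖u j‖) j₀ hu0 (2 * k) (by
    intro j hj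
    refine lt_of_le_of_lt (norm_u p h3 (c j) j (hc j)) (lt_of_le_of_lt ?_ hk)
    apply zpow_le_zpow_right₀ hp1.le
    omega)
  obtain ⟨F, hF, hcard⟩ := hinf.exists_subset_card_eq (m + 1)
  -- the polynomials
  set ΨZ : ℤ[X] := ∏ n ∈ F, (X - C (n : ℤ)) with hΨZ
  have hmonZ : ΨZ.Monic := monic_prod_of_monic _ _ fun n _ => monic_X_sub_C _
  have hdegZ : ΨZ.natDegree = m + 1 := by
    rw [hΨZ, natDegree_prod_of_monic _ _ fun n _ => monic_X_sub_C _]
    have h1 : ∀ n ∈ F, (X - C (n : ℤ) : ℤ[X]).natDegree = 1 := fun n _ => natDegree_X_sub_C _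
    rw [Finset.sum_congr rfl h1, Finset.sum_const, hcard, smul_eq_mul, mul_one]
  set z : ℕ → ℤ := fun j => (descPochhammer ℤ j %ₘ ΨZ).coeff m with hz
  have hself : ∀ j, j ≤ m → descPochhammer ℤ j %ₘ ΨZ = descPochhammer ℤ j := by
    intro j hj
    rw [modByMonic_eq_self_iff hmonZ]
    apply degree_lt_degree
    rw [descPochhammer_natDegree, hdegZ]
    omega
  have hz0 : ∀ j, j < m → z j = 0 := by
    intro j hj
    show (descPochhammer ℤ j %ₘ ΨZ).coeff m = 0
    rw [hself j hj.le]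
    apply coeff_eq_zero_of_natDegree_lt
    rw [descPochhammer_natDegree]
    exact hj
  have hzm : z m = 1 := by
    show (descPochhammer ℤ m %ₘ ΨZ).coeff m = 1
    rw [hself m le_rfl]
    have h1 := monic_descPochhammer ℤ m
    rw [Monic, leadingCoeff, descPochhammer_natDegree] at h1
    exact h1
  set J : ℕ := m + F.sup id with hJ
  set Ψ : ℚ_[p][X] := ΨZ.map (Int.castRingHom ℚ_[p]) with hΨ
  have hmon : Ψ.Monic := hmonZ.map _
  set Φ : ℚ_[p][X] := ∑ j ∈ Finset.range (J + 1), C (u j) * descPochhammer ℚ_[p] j with hΦ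
  have heval : ∀ n ∈ F, Φ.eval (n : ℚ_[p]) = 0 := by
    intro n hn
    have hnJ : n ≤ J := by
      have : n ≤ F.sup id := Finset.le_sup (f := id) hn
      omega
    have h1 : ∑ j ∈ Finset.range (n + 1), (n.choose j : ℤ_[p]) * c j = 0 := hF hn
    have h2 : ∑ j ∈ Finset.range (n + 1), (n.choose j : ℚ_[p]) * (c j : ℚ_[p]) = 0 := by
      have := congrArg (PadicInt.Coe.ringHom (p := p)) h1
      rw [map_sum, map_zero] at this
      rw [← this]
      refine Finset.sum_congr rfl fun j _ => ?_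
      rw [map_mul, map_natCast]
      rfl
    rw [hΦ, eval_finsetSum]
    rw [← h2]
    symm
    apply Finset.sum_subset_zero_on_sdiff
    · intro j hj
      rw [Finset.mem_range] at hj ⊢
      omega
    · intro j hj
      rw [Finset.mem_sdiff, Finset.mem_range, Finset.mem_range] at hj
      rw [eval_mul, descPochhammer_eval_eq_descFactorial,
        Nat.descFactorial_eq_zero_iff_lt.2 (by omega), Nat.cast_zero, mul_zero]
    · intro j _
      rw [eval_mul, eval_C, descPochhammer_eval_eq_descFactorial,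
        Nat.descFactorial_eq_factorial_mul_choose]
      push_cast
      show _ = (c j : ℚ_[p]) / (j.factorial : ℚ_[p]) * ((j.factorial : ℚ_[p]) * (n.choose j : ℚ_[p]))
      have := hfac j
      field_simp
  have hdvd : Ψ ∣ Φ := by
    rw [hΨ, hΨZ, Polynomial.map_prod]
    have h1 : ∀ n ∈ F, (X - C (n : ℤ) : ℤ[X]).map (Int.castRingHom ℚ_[p]) =
        X - C (n : ℚ_[p]) := by
      intro n _
      simp
    rw [Finset.prod_congr rfl h1]
    apply Finset.prod_dvd_of_coprime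
    · intro a _ b _ hab
      exact pairwise_coprime_X_sub_C (K := ℚ_[p]) (s := fun n : ℕ => (n : ℚ_[p]))
        Nat.cast_injective hab
    · intro n hn
      exact dvd_iff_isRoot.2 (heval n hn)
  have hzero : Φ %ₘ Ψ = 0 := (modByMonic_eq_zero_iff_dvd hmon).2 hdvd
  have hsum : ∑ j ∈ Finset.range (J + 1), u j * (z j : ℚ_[p]) = 0 := by
    have h1 : (Φ %ₘ Ψ).coeff m = ∑ j ∈ Finset.range (J + 1), u j * (z j : ℚ_[p]) := by
      have h2 : Φ %ₘ Ψ = modByMonicHom Ψ Φ := rfl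
      rw [h2, hΦ, map_sum, finsetSum_coeff]
      refine Finset.sum_congr rfl fun j _ => ?_
      rw [← smul_eq_C_mul, map_smul, coeff_smul, smul_eq_mul]
      congr 1
      show (descPochhammer ℚ_[p] j %ₘ Ψ).coeff m = (z j : ℚ_[p])
      rw [hΨ, ← descPochhammer_map (Int.castRingHom ℚ_[p]) j, ← map_modByMonic _ hmonZ, coeff_map]
      rfl
    rw [← h1, hzero, coeff_zero]
  have hmem : m ∈ Finset.range (J + 1) := Finset.mem_range.2 (by omega)
  rw [← Finset.add_sum_erase _ _ hmem, hzm, Int.cast_one, mul_one] at hsum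
  have hlt : ‖∑ j ∈ (Finset.range (J + 1)).erase m, u j * (z j : ℚ_[p])‖ < ‖u m‖ := by
    refine Finset.sum_induction _ (fun x : ℚ_[p] => ‖x‖ < ‖u m‖) ?_ ?_ ?_
    · intro a b ha hb
      exact lt_of_le_of_lt (IsUltrametricDist.norm_add_le_max a b) (max_lt ha hb)
    · show ‖(0 : ℚ_[p])‖ < ‖u m‖
      rw [norm_zero]
      exact hm0
    · intro j hj
      rw [Finset.mem_erase] at hj
      show ‖u j * (z j : ℚ_[p])‖ < ‖u m‖
      rcases lt_or_gt_of_ne hj.1 with h | h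
      · rw [hz0 j h, Int.cast_zero, mul_zero, norm_zero]
        exact hm0
      · rw [norm_mul]
        calc ‖u j‖ * ‖(z j : ℚ_[p])‖ ≤ ‖u j‖ * 1 := by
              gcongr
              exact Padic.norm_int_le_one _
          _ = ‖u j‖ := mul_one _
          _ < ‖u m‖ := hm j h
  have h1 : u m = -∑ j ∈ (Finset.range (J + 1)).erase m, u j * (z j : ℚ_[p]) :=
    eq_neg_of_add_eq_zero_left hsum
  rw [h1, norm_neg] at hlt
  rw [← norm_neg, ← h1] at hlt
  exact lt_irrefl _ hlt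

end Pool.Agent.Helper96.GO
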